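import Mathlib

set_option autoImplicit false

namespace Pool.Agent.Results.MP_3553b5_co.MDSCase

open Polynomial

/-- The Hamming-distance graph `H_q(n,d)`: vertices `Z_q^n`, distinct vertices adjacent when their
Hamming distance is at least `d`. -/
def hammingDistGraph (q n d : ℕ) : SimpleGraph (Fin n → ZMod q) where
  Adj x y := x ≠ y ∧ d ≤ hammingDist x y
  symm := ⟨fun x y h => ⟨h.1.symm, by rw [hammingDist_comm]; exact h.2⟩⟩
  loopless := ⟨fun x h => h.1 rfl⟩

/-- `{x, y}` is a transition edge of the proper colouring `K`: it is an edge, and exchanging the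
colours of `x` and `y` gives again a proper colouring. -/
def IsTransitionEdge {q n d k : ℕ} (K : (hammingDistGraph q n d).Coloring (Fin k))
    (x y : Fin n → ZMod q) : Prop :=
  (hammingDistGraph q n d).Adj x y ∧
    ∀ u v, (hammingDistGraph q n d).Adj u v →
      (if u = x then K y else if u = y then K x else K u) ≠
        (if v = x then K y else if v = y then K x else K v)

/-- `C` is an MDS code: `q^(n-d+1)` words with pairwise Hamming distance at least `d`. -/
def IsMDSCode (q n d : ℕ) (C : Finset (Fin n → ZMod q)) : Prop :=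
  C.card = q ^ (n - d + 1) ∧ ∀ x ∈ C, ∀ y ∈ C, x ≠ y → d ≤ hammingDist x y

/-- An isometry of the Hamming space maps MDS codes to MDS codes. -/
theorem mds_map {q n d : ℕ} {C : Finset (Fin n → ZMod q)} (hC : IsMDSCode q n d C)
    (T : (Fin n → ZMod q) → (Fin n → ZMod q)) (hT : Function.Injective T)
    (hd : ∀ a b, hammingDist (T a) (T b) = hammingDist a b) :
    ∃ C' : Finset (Fin n → ZMod q), IsMDSCode q n d C' ∧ ∀ z, z ∈ C' ↔ ∃ c ∈ C, T c = z := by
  classical
  refine ⟨C.image T, ⟨?_, ?_⟩, ?_⟩
  · rw [Finset.card_image_of_injective _ hT, hC.1]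
  · intro x hx y hy hxy
    obtain ⟨a, ha, rfl⟩ := Finset.mem_image.1 hx
    obtain ⟨b, hb, rfl⟩ := Finset.mem_image.1 hy
    rw [hd]
    exact hC.2 a ha b hb (fun h => hxy (by rw [h]))
  · intro z; simp

/-- Through every vertex `x` and avoiding a given other vertex `y` there is an MDS code, as soon as
there is one at all. -/
theorem exists_mds_through {q n d : ℕ} (hq : 3 ≤ q) (hd : 2 ≤ d)
    {C : Finset (Fin n → ZMod q)} (hC : IsMDSCode q n d C) (x y : Fin n → ZMod q) (hxy : x ≠ y) :
    ∃ C' : Finset (Fin n → ZMod q), IsMDSCode q n d C' ∧ x ∈ C' ∧ y ∉ C' := by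
  classical
  have : NeZero q := ⟨by omega⟩
  have hne : C.Nonempty := by
    rw [← Finset.card_pos, hC.1]
    exact Nat.pow_pos (by omega)
  obtain ⟨c0, hc0⟩ := hne
  obtain ⟨C1, hC1, hmem1⟩ := mds_map hC (fun c => c + (x - c0))
    (fun a b h => add_right_cancel h)
    (fun a b => by
      rw [hammingDist_eq_hammingNorm, hammingDist_eq_hammingNorm]
      congr 1
      abel)
  have hx1 : x ∈ C1 := (hmem1 x).2 ⟨c0, hc0, by simp⟩
  by_cases hy1 : y ∈ C1
  · obtain ⟨i, hi⟩ := Function.ne_iff.1 hxy
    obtain ⟨z, hz⟩ : ∃ z : ZMod q, z ∉ ({x i, y i} : Finset (ZMod q)) := by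
      have hlt : ({x i, y i} : Finset (ZMod q)).card < Fintype.card (ZMod q) := by
        have := Finset.card_le_two (a := x i) (b := y i)
        rw [ZMod.card]; omega
      obtain ⟨z, hz⟩ := Finset.exists_mem_notMem_of_card_lt_card (s := {x i, y i})
        (t := (Finset.univ : Finset (ZMod q))) (by simpa using hlt)
      exact ⟨z, hz.2⟩
    simp only [Finset.mem_insert, Finset.mem_singleton, not_or] at hz
    let σ : Fin n → Equiv.Perm (ZMod q) := fun j => if j = i then Equiv.swap (y i) z else Equiv.refl _
    let T : (Fin n → ZMod q) → (Fin n → ZMod q) := fun c j => σ j (c j)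
    have hTinj : Function.Injective T := by
      intro a b hab
      funext j
      exact (σ j).injective (congrFun hab j)
    obtain ⟨C2, hC2, hmem2⟩ := mds_map hC1 T hTinj
      (fun a b => hammingDist_comp (fun j => (σ j : ZMod q → ZMod q)) (fun j => (σ j).injective))
    refine ⟨C2, hC2, ?_, ?_⟩
    · refine (hmem2 x).2 ⟨x, hx1, ?_⟩
      funext j
      by_cases hj : j = i
      · subst hj
        simp only [T, σ, if_true]
        exact Equiv.swap_apply_of_ne_of_ne hi (Ne.symm hz.1)
      · simp [T, σ, hj]
    · intro hy2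
      obtain ⟨c, hc, hTc⟩ := (hmem2 y).1 hy2
      have hcj : ∀ j, j ≠ i → c j = y j := by
        intro j hj
        have := congrFun hTc j
        simpa [T, σ, hj] using this
      have hci : c i ≠ y i := by
        intro h
        have := congrFun hTc i
        simp only [T, σ, if_true] at this
        rw [h, Equiv.swap_apply_left] at this
        exact hz.2 this
      have hcy : c ≠ y := fun h => hci (by rw [h])
      have h1 : d ≤ hammingDist c y := hC1.2 c hc y hy1 hcy
      have h2 : hammingDist c y ≤ 1 := by
        have : (Finset.univ.filter fun j => c j ≠ y j) ⊆ {i} := by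
          intro j hj
          rw [Finset.mem_filter] at hj
          by_contra hcon
          rw [Finset.mem_singleton] at hcon
          exact hj.2 (hcj j hcon)
        calc hammingDist c y = (Finset.univ.filter fun j => c j ≠ y j).card := rfl
          _ ≤ ({i} : Finset (Fin n)).card := Finset.card_le_card this
          _ = 1 := Finset.card_singleton i
      omega
  · exact ⟨C1, hC1, hx1, hy1⟩

/-- The main argument: if an MDS code exists then no `q^(n-d+1)`-colouring has a transition edge. -/
theorem no_transition_of_mds {q n d : ℕ} (hq : 3 ≤ q) (hd : 2 ≤ d)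
    {C : Finset (Fin n → ZMod q)} (hC : IsMDSCode q n d C)
    (K : (hammingDistGraph q n d).Coloring (Fin (q ^ (n - d + 1)))) (x y : Fin n → ZMod q) :
    ¬ IsTransitionEdge K x y := by
  classical
  rintro ⟨hadj, hsw⟩
  obtain ⟨C', hC', hx, hy⟩ := exists_mds_through hq hd hC x y hadj.1
  have hinj : Set.InjOn K (C' : Set (Fin n → ZMod q)) := by
    intro a ha b hb hab
    by_contra hne
    exact K.valid (v := a) (w := b) ⟨hne, hC'.2 a ha b hb hne⟩ hab
  have himg : C'.image K = Finset.univ := by
    apply Finset.eq_univ_of_card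
    rw [Finset.card_image_of_injOn hinj, hC'.1, Fintype.card_fin]
  have hKy : K y ∈ C'.image K := by rw [himg]; exact Finset.mem_univ _
  obtain ⟨z, hz, hKz⟩ := Finset.mem_image.1 hKy
  have hzx : z ≠ x := by
    rintro rfl
    exact K.valid hadj hKz
  have hzy : z ≠ y := by
    rintro rfl
    exact hy hz
  have hxz : (hammingDistGraph q n d).Adj x z := ⟨hzx.symm, hC'.2 x hx z hz hzx.symm⟩
  have := hsw x z hxz
  simp [hzx, hzy, hKz] at this

/-- The parity-check code. -/
theorem mds_two {q n : ℕ} (hq : 3 ≤ q) (hn : 2 ≤ n) :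
    ∃ C : Finset (Fin n → ZMod q), IsMDSCode q n 2 C := by
  classical
  have : NeZero q := ⟨by omega⟩
  obtain ⟨m, rfl⟩ : ∃ m, n = m + 1 := ⟨n - 1, by omega⟩
  let T : (Fin m → ZMod q) → (Fin (m + 1) → ZMod q) :=
    fun x => Fin.snoc (α := fun _ => ZMod q) x (- ∑ i, x i)
  have hsum : ∀ x, ∑ i, T x i = 0 := by
    intro x
    rw [Fin.sum_univ_castSucc]
    simp [T]
  have hT : Function.Injective T := by
    intro a b hab
    funext i
    have := congrFun hab i.castSucc
    simpa [T] using this
  refine ⟨Finset.univ.image T, ?_, ?_⟩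
  · rw [Finset.card_image_of_injective _ hT]
    simp only [Finset.card_univ, Fintype.card_pi, ZMod.card, Finset.prod_const, Fintype.card_fin]
    congr 1
    omega
  · intro x hx y hy hxy
    obtain ⟨a, -, rfl⟩ := Finset.mem_image.1 hx
    obtain ⟨b, -, rfl⟩ := Finset.mem_image.1 hy
    by_contra hlt
    have h1 : 0 < hammingDist (T a) (T b) := hammingDist_pos.2 hxy
    have h2 : hammingDist (T a) (T b) = 1 := by omega
    have h3 : (Finset.univ.filter fun i => T a i ≠ T b i).card = 1 := h2
    obtain ⟨i, hi⟩ := Finset.card_eq_one.1 h3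
    have hi' : i ∈ (Finset.univ.filter fun i => T a i ≠ T b i) := by rw [hi]; simp
    have hne : T a i ≠ T b i := (Finset.mem_filter.1 hi').2
    have hoff : ∀ j, j ≠ i → T a j = T b j := by
      intro j hj
      by_contra hcon
      have : j ∈ (Finset.univ.filter fun i => T a i ≠ T b i) := by simp [hcon]
      rw [hi, Finset.mem_singleton] at this
      exact hj this
    have h4 : ∑ j, (T a j - T b j) = 0 := by
      rw [Finset.sum_sub_distrib, hsum, hsum, sub_zero]
    rw [Finset.sum_eq_single i (fun j _ hj => by rw [hoff j hj, sub_self])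
      (fun h => absurd (Finset.mem_univ _) h)] at h4
    exact hne (sub_eq_zero.1 h4)

/-- The (extended, punctured) Reed-Solomon code. -/
theorem mds_primePow {q n d : ℕ} (hq : IsPrimePow q) (hd : 2 ≤ d) (hdn : d ≤ n)
    (hn : n ≤ q + 1) : ∃ C : Finset (Fin n → ZMod q), IsMDSCode q n d C := by
  classical
  obtain ⟨p, m, hp, hm, hpm⟩ := hq
  have : Fact p.Prime := ⟨Nat.prime_iff.2 hp⟩
  have hq1 : 1 < q := by
    rw [← hpm]
    exact Nat.one_lt_pow hm.ne' (Fact.out : p.Prime).one_lt
  have : NeZero q := ⟨by omega⟩
  let F := GaloisField p m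
  have hFfin : Finite F := by
    apply Nat.finite_of_card_ne_zero
    rw [GaloisField.card p m hm.ne', hpm]; omega
  have : Fintype F := Fintype.ofFinite F
  have hFc : Fintype.card F = q := by
    rw [← Nat.card_eq_fintype_card, GaloisField.card p m hm.ne', hpm]
  obtain ⟨φ⟩ : Nonempty (F ≃ ZMod q) := by
    apply Fintype.card_eq.1
    rw [hFc, ZMod.card]
  obtain ⟨e⟩ : Nonempty (Fin n ↪ Option F) := by
    apply Function.Embedding.nonempty_of_card_le
    simp [hFc, hn]
  obtain ⟨k, hk⟩ : ∃ k, n - d + 1 = k + 1 := ⟨n - d, rfl⟩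
  -- the evaluation map
  let P : (Fin (k + 1) → F) → F[X] := fun a => ∑ i, Polynomial.C (a i) * X ^ (i : ℕ)
  have hPcoeff : ∀ a (j : Fin (k + 1)), (P a).coeff j = a j := by
    intro a j
    simp only [P, finsetSum_coeff, coeff_C_mul, coeff_X_pow]
    rw [Finset.sum_eq_single j]
    · simp
    · intro b _ hb
      have : (j : ℕ) ≠ (b : ℕ) := fun h => hb (Fin.ext h.symm)
      simp [this]
    · intro h; exact absurd (Finset.mem_univ _) h
  have hPdeg : ∀ a, (P a).natDegree ≤ k := by
    intro a
    apply natDegree_sum_le_of_forall_le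
    intro i _
    refine (natDegree_C_mul_X_pow_le _ _).trans ?_
    have := i.2
    omega
  let ev : F[X] → (Option F) → F := fun f o => match o with
    | none => f.coeff k
    | some α => f.eval α
  let T : (Fin (k + 1) → F) → (Fin n → ZMod q) := fun a i => φ (ev (P a) (e i))
  -- agreements
  have hagree : ∀ a b, a ≠ b → (Finset.univ.filter fun i => T a i = T b i).card ≤ k := by
    intro a b hab
    have hPne : P a - P b ≠ 0 := by
      intro h
      apply hab
      funext j
      have := congrArg (fun f => coeff f (j : ℕ)) h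
      simpa [hPcoeff, sub_eq_zero] using this
    have hdeg : (P a - P b).natDegree ≤ k :=
      (natDegree_sub_le _ _).trans (max_le (hPdeg a) (hPdeg b))
    have hmap : ((Finset.univ.filter fun i => T a i = T b i).image e) ⊆
        (((P a - P b).roots.toFinset).image some) ∪
          (if (P a - P b).coeff k = 0 then {none} else ∅) := by
      intro o ho
      obtain ⟨i, hi, rfl⟩ := Finset.mem_image.1 ho
      have hi2 : T a i = T b i := (Finset.mem_filter.1 hi).2
      have hi3 : ev (P a) (e i) = ev (P b) (e i) := φ.injective hi2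
      rw [Finset.mem_union]
      rcases h : e i with _ | α
      · right
        rw [h] at hi3
        have : (P a - P b).coeff k = 0 := by
          rw [coeff_sub, sub_eq_zero]; exact hi3
        simp [this]
      · left
        rw [h] at hi3
        rw [Finset.mem_image]
        refine ⟨α, ?_, rfl⟩
        rw [Multiset.mem_toFinset, mem_roots hPne, IsRoot.def, eval_sub, sub_eq_zero]
        exact hi3
    have hc1 : (Finset.univ.filter fun i => T a i = T b i).card
        = ((Finset.univ.filter fun i => T a i = T b i).image e).card :=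
      (Finset.card_image_of_injective _ e.injective).symm
    rw [hc1]
    refine (Finset.card_le_card hmap).trans ((Finset.card_union_le _ _).trans ?_)
    have hr : ((P a - P b).roots.toFinset.image (some : F → Option F)).card
        ≤ (P a - P b).natDegree :=
      Finset.card_image_le.trans ((Multiset.toFinset_card_le _).trans (card_roots' _))
    split_ifs with hc
    · have hk1 : (P a - P b).natDegree ≠ k := by
        intro h
        apply hPne
        rw [← leadingCoeff_eq_zero, leadingCoeff, h]
        exact hc
      rw [Finset.card_singleton]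
      omega
    · simp only [Finset.card_empty, add_zero]
      omega
  have hdist : ∀ a b, a ≠ b → d ≤ hammingDist (T a) (T b) := by
    intro a b hab
    have h1 := hagree a b hab
    have h2 := Finset.card_filter_add_card_filter_not (s := (Finset.univ : Finset (Fin n)))
      (fun i => T a i = T b i)
    have h3 : hammingDist (T a) (T b) = (Finset.univ.filter fun i => ¬ T a i = T b i).card := rfl
    rw [Finset.card_univ, Fintype.card_fin] at h2
    omega
  have hT : Function.Injective T := by
    intro a b hab
    by_contra hne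
    have h1 := hdist a b hne
    rw [hab, hammingDist_self] at h1
    omega
  refine ⟨Finset.univ.image T, ?_, ?_⟩
  · rw [Finset.card_image_of_injective _ hT]
    simp only [Finset.card_univ, Fintype.card_pi, Finset.prod_const, Fintype.card_fin, hFc]
    rw [hk]
  · intro x hx y hy hxy
    obtain ⟨a, -, rfl⟩ := Finset.mem_image.1 hx
    obtain ⟨b, -, rfl⟩ := Finset.mem_image.1 hy
    exact hdist a b (fun h => hxy (by rw [h]))

/-- Let `q ≥ 3`, `2 ≤ d ≤ n`. If an MDS code with parameters `(n, q^(n-d+1), d)` over an alphabet
of size `q` exists, and in particular if `d = 2`, or if `q` is a prime power and `n ≤ q + 1`, then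
no proper `q^(n-d+1)`-colouring of `H_q(n,d)` has a transition edge. -/
theorem result (q n d : ℕ) (hq : 3 ≤ q) (hd : 2 ≤ d) (hdn : d ≤ n)
    (h : d = 2 ∨ (IsPrimePow q ∧ n ≤ q + 1) ∨
      ∃ C : Finset (Fin n → ZMod q), IsMDSCode q n d C)
    (K : (hammingDistGraph q n d).Coloring (Fin (q ^ (n - d + 1)))) (x y : Fin n → ZMod q) :
    ¬ IsTransitionEdge K x y := by
  have hex : ∃ C : Finset (Fin n → ZMod q), IsMDSCode q n d C := by
    rcases h with h | h | h
    · subst h
      exact mds_two hq hdn
    · exact mds_primePow h.1 hd hdn h.2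
    · exact h
  obtain ⟨C, hC⟩ := hex
  exact no_transition_of_mds hq hd hC K x y

end Pool.Agent.Results.MP_3553b5_co.MDSCase
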