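import Mathlib

set_option autoImplicit false

namespace Pool.Agent.Results.MP_3553b5_co.NegAnswer

/-- The Hamming-distance graph `H_q(n,d)`: vertices `Z_q^n`, distinct vertices adjacent when their
Hamming distance is at least `d`. -/
def hammingDistGraph (q n d : ℕ) : SimpleGraph (Fin n → ZMod q) where
  Adj x y := x ≠ y ∧ d ≤ hammingDist x y
  symm := ⟨fun x y h => ⟨h.1.symm, by rw [hammingDist_comm]; exact h.2⟩⟩
  loopless := ⟨fun x h => h.1 rfl⟩

/-- `{x, y}` is a transition edge of the proper colouring `K`: it is an edge, and exchanging the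
colours of `x` and `y` gives again a proper colouring. -/
def IsTransitionEdge {q n d k : ℕ} (K : (hammingDistGraph q n d).Coloring (Fin k))
    (x y : Fin n → ZMod q) : Prop :=
  (hammingDistGraph q n d).Adj x y ∧
    ∀ u v, (hammingDistGraph q n d).Adj u v →
      (if u = x then K y else if u = y then K x else K u) ≠
        (if v = x then K y else if v = y then K x else K v)

/-- A partition of `Z_q^n` into few sets of small diameter, from a code of covering radius one. -/
theorem key (q n d : ℕ) [NeZero q] (hq : 2 ≤ q) (hd : 3 ≤ d) (hn : q ^ 3 + (d - 3) ≤ n) :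
    ∃ (S : Finset (Fin n)) (f : (Fin n → ZMod q) → ({i : Fin n // i ∉ S} → ZMod q)),
      S.card = d ∧ ∀ x y, f x = f y → hammingDist x y ≤ d - 1 := by
  classical
  have hcard : Fintype.card (Fin 3 → ZMod q) ≤ Fintype.card (Fin n) := by
    simp only [Fintype.card_pi, ZMod.card, Finset.prod_const, Finset.card_univ, Fintype.card_fin]
    omega
  obtain ⟨e⟩ := Function.Embedding.nonempty_of_card_le hcard
  have hR : (Finset.univ.map e).card = q ^ 3 := by
    simp [ZMod.card]
  have hRc : d - 3 ≤ ((Finset.univ.map e)ᶜ).card := by
    rw [Finset.card_compl, hR, Fintype.card_fin]; omega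
  obtain ⟨D, hDs, hDc⟩ := Finset.exists_subset_card_eq hRc
  have : Fact (1 < q) := ⟨by omega⟩
  let u : Fin 3 → (Fin 3 → ZMod q) := fun i => Pi.single i 1
  have hu : Function.Injective u := by
    intro i j hij
    by_contra hne
    have := congrFun hij i
    simp [u, Pi.single_apply, hne] at this
  let U : Finset (Fin n) := Finset.univ.image (fun i => e (u i))
  have hUc : U.card = 3 := by
    have : Function.Injective (fun i => e (u i)) := e.injective.comp hu
    simp [U, Finset.card_image_of_injective _ this]
  have hUD : Disjoint U D := by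
    rw [Finset.disjoint_left]
    intro a ha haD
    obtain ⟨i, -, rfl⟩ := Finset.mem_image.1 ha
    have := hDs haD
    simp at this
  let syn : (Fin n → ZMod q) → (Fin 3 → ZMod q) := fun x => ∑ s, x (e s) • s
  let c : (Fin n → ZMod q) → (Fin n → ZMod q) := fun x => x - Pi.single (e (syn x)) 1
  have hsync : ∀ x, syn (c x) = 0 := by
    intro x
    have h1 : ∀ s, (c x) (e s) = x (e s) - (if s = syn x then 1 else 0) := by
      intro s
      simp only [c, Pi.sub_apply, Pi.single_apply, e.injective.eq_iff]
    have h2 : syn (c x) = (∑ s, x (e s) • s) - ∑ s, (if s = syn x then (1 : ZMod q) else 0) • s := by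
      rw [← Finset.sum_sub_distrib]
      apply Finset.sum_congr rfl
      intro s _
      rw [h1, sub_smul]
    rw [h2]
    have h3 : ∑ s, (if s = syn x then (1 : ZMod q) else 0) • s = syn x := by
      simp [ite_smul, Finset.sum_ite_eq']
    rw [h3]
    exact sub_self _
  refine ⟨U ∪ D, fun x i => c x i, ?_, ?_⟩
  · rw [Finset.card_union_of_disjoint hUD, hUc, hDc]; omega
  · intro x y hxy
    have hoff : ∀ i, i ∉ U ∪ D → c x i = c y i := by
      intro i hi
      exact congrFun hxy ⟨i, hi⟩
    have hU : ∀ j : Fin 3, c x (e (u j)) = c y (e (u j)) := by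
      intro j
      have h0 : ∑ s, (c x (e s) - c y (e s)) • s = 0 := by
        have : ∑ s, (c x (e s) - c y (e s)) • s = syn (c x) - syn (c y) := by
          simp only [syn, sub_smul, Finset.sum_sub_distrib]
        rw [this, hsync, hsync, sub_zero]
      have h1 := congrFun h0 j
      rw [Finset.sum_apply] at h1
      have h2 : ∑ s, ((c x (e s) - c y (e s)) • s) j
          = ((c x (e (u j)) - c y (e (u j))) • (u j)) j := by
        apply Finset.sum_eq_single (u j)
        · intro s _ hs
          by_cases hsu : ∃ i, s = u i
          · obtain ⟨i, rfl⟩ := hsu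
            have hij : i ≠ j := fun h => hs (by rw [h])
            simp [u, Pi.single_apply, Ne.symm hij]
          · have hsd : e s ∉ U ∪ D := by
              intro h
              rcases Finset.mem_union.1 h with h | h
              · obtain ⟨i, -, hi⟩ := Finset.mem_image.1 h
                exact hsu ⟨i, (e.injective hi).symm⟩
              · have := hDs h
                simp at this
            rw [hoff _ hsd, sub_self, zero_smul]
            rfl
        · intro h
          exact absurd (Finset.mem_univ _) h
      rw [h2] at h1
      simpa [u, sub_eq_zero] using h1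
    have hc : ∀ i, i ∉ D → c x i = c y i := by
      intro i hi
      by_cases hiU : i ∈ U
      · obtain ⟨j, -, rfl⟩ := Finset.mem_image.1 hiU
        exact hU j
      · exact hoff i (by simp [hiU, hi])
    have hsub : (Finset.univ.filter fun i => x i ≠ y i) ⊆ D ∪ {e (syn x), e (syn y)} := by
      intro i hi
      rw [Finset.mem_filter] at hi
      by_contra hcon
      simp only [Finset.mem_union, Finset.mem_insert, Finset.mem_singleton, not_or] at hcon
      obtain ⟨hD, h1, h2⟩ := hcon
      apply hi.2
      have := hc i hD
      simpa [c, Pi.single_apply, h1, h2] using this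
    calc hammingDist x y = (Finset.univ.filter fun i => x i ≠ y i).card := rfl
      _ ≤ (D ∪ {e (syn x), e (syn y)}).card := Finset.card_le_card hsub
      _ ≤ D.card + ({e (syn x), e (syn y)} : Finset (Fin n)).card := Finset.card_union_le _ _
      _ ≤ (d - 3) + 2 := by
          have := Finset.card_le_two (a := e (syn x)) (b := e (syn y))
          omega
      _ = d - 1 := by omega

/-- Recolour two vertices of a properly coloured graph with two new private colours. -/
def recolour {V F : Type} [DecidableEq V] (f : V → F) (x0 y0 v : V) : Option (Option F) :=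
  if v = x0 then none else if v = y0 then some none else some (some (f v))

theorem recolour_proper {V F : Type} [DecidableEq V] (f : V → F) (x0 y0 u v : V)
    (hne : u ≠ v) (hf : f u ≠ f v) : recolour f x0 y0 u ≠ recolour f x0 y0 v := by
  unfold recolour
  split_ifs <;> simp_all

theorem recolour_swap {V F : Type} [DecidableEq V] (f : V → F) (x0 y0 u v : V) (hxy : x0 ≠ y0)
    (hne : u ≠ v) (hf : f u ≠ f v) :
    (if u = x0 then recolour f x0 y0 y0 else if u = y0 then recolour f x0 y0 x0
      else recolour f x0 y0 u) ≠
    (if v = x0 then recolour f x0 y0 y0 else if v = y0 then recolour f x0 y0 x0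
      else recolour f x0 y0 v) := by
  unfold recolour
  split_ifs <;> simp_all

/-- For every `q ≥ 3` and every `d ≥ 3`, and for all sufficiently large `n`
(namely `n ≥ q^3 + (d - 3)`), there is a proper `q^(n-d+1)`-colouring of `H_q(n,d)` that has a
transition edge. -/
theorem result (q d n : ℕ) (hq : 3 ≤ q) (hd : 3 ≤ d) (hn : q ^ 3 + (d - 3) ≤ n) :
    2 ≤ d ∧ d ≤ n ∧
      ∃ (K : (hammingDistGraph q n d).Coloring (Fin (q ^ (n - d + 1))))
        (x y : Fin n → ZMod q), IsTransitionEdge K x y := by
  classical
  have : NeZero q := ⟨by omega⟩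
  have : Fact (1 < q) := ⟨by omega⟩
  have hq3 : 27 ≤ q ^ 3 := by
    calc 27 = 3 ^ 3 := by norm_num
      _ ≤ q ^ 3 := Nat.pow_le_pow_left hq 3
  have hdn : d ≤ n := by omega
  refine ⟨by omega, hdn, ?_⟩
  obtain ⟨S, f, hS, hf⟩ := key q n d (by omega) hd hn
  have hκ : Fintype.card (Option (Option ({i : Fin n // i ∉ S} → ZMod q)))
      ≤ Fintype.card (Fin (q ^ (n - d + 1))) := by
    simp only [Fintype.card_option, Fintype.card_pi, ZMod.card, Finset.prod_const,
      Finset.card_univ, Fintype.card_fin]
    have h1 : Fintype.card {i : Fin n // i ∉ S} = n - d := by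
      rw [Fintype.card_subtype_compl]; simp [hS]
    rw [h1, pow_succ]
    have h2 : 1 ≤ q ^ (n - d) := Nat.one_le_pow _ _ (by omega)
    nlinarith
  obtain ⟨g⟩ := Function.Embedding.nonempty_of_card_le hκ
  let x0 : Fin n → ZMod q := fun _ => 0
  let y0 : Fin n → ZMod q := fun _ => 1
  have hdist : hammingDist x0 y0 = n := by
    have : (Finset.univ.filter fun i => x0 i ≠ y0 i) = Finset.univ := by
      ext i; simp [x0, y0]
    show (Finset.univ.filter fun i => x0 i ≠ y0 i).card = n
    rw [this]; simp
  have hxy : x0 ≠ y0 := by
    intro h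
    rw [h, hammingDist_self] at hdist
    omega
  have hadj : (hammingDistGraph q n d).Adj x0 y0 := ⟨hxy, by rw [hdist]; exact hdn⟩
  have hprop : ∀ {u v : Fin n → ZMod q}, (hammingDistGraph q n d).Adj u v → f u ≠ f v := by
    intro u v huv h
    have h1 := hf u v h
    have h2 : d ≤ hammingDist u v := huv.2
    omega
  let K : (hammingDistGraph q n d).Coloring (Fin (q ^ (n - d + 1))) :=
    SimpleGraph.Coloring.mk (fun v => g (recolour f x0 y0 v))
      (fun {u v} huv h => recolour_proper f x0 y0 u v huv.1 (hprop huv) (g.injective h))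
  refine ⟨K, x0, y0, hadj, ?_⟩
  intro u v huv h
  apply recolour_swap f x0 y0 u v hxy huv.1 (hprop huv)
  apply g.injective
  have hKv : ∀ v, K v = g (recolour f x0 y0 v) := fun v => rfl
  simp only [hKv] at h
  rw [apply_ite g, apply_ite g, apply_ite g, apply_ite g]
  exact h

end Pool.Agent.Results.MP_3553b5_co.NegAnswer
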